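import Pool.Agent.H17DA.PubMain

/-!
# MP_5ac764_ag, Q2: disproof

Let `k` be an algebraically closed field of characteristic two and `m ≥ 1`. The smooth quadric `V`
of dimension `2m + 1`, `z² + x₀y₀ + … + x_m y_m = 0` in the projective space of dimension `2m + 2`, is
globally `F`-split and `D`-affine: every `D_V`-module that is quasi-coherent as an `O_V`-module is
generated by its global sections and has no higher cohomology. But for every `e ≥ 2`, the first
cohomology group of `D^(e) = End_{O^(2^e)}(O)`, which is `Ext¹(F^e_* O, F^e_* O)`, is not zero, so
`F^e_* O` is not tilting.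

The definitions (`H17DA/Defs.lean`, `H17DA/Pub.lean`): `U_a`, for `a` in `Fin (m + 1) × Fin 2`, is the
affine open set of `V` where the coordinate `x_i` or `y_i` (`xyIdx m a`) does not vanish, `U_S` the
intersection of the `U_a`, `a ∈ S`. `DRing` is the ring of differential operators on `U_S`; the
`PreMod` with `IsDMod` are the quasi-coherent `D_V`-modules, given by their sections on the `U_S`;
`DAffine` says that they are generated by their global sections and that their Čech cohomology for the
`U_a` vanishes in positive degrees; `LevelH1Zero V c q` says that the first Čech cohomology group of the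
sheaf of the `O^q`-linear differential operators is zero.

Proof. Let `ζ`, `ξ_a` be the coordinates. The functions on `U_S` have as basis the monomials
`ξ^v ζ^e`, `e = 0, 1`, of degree zero, with `v_a ≥ 0` for `a ∉ S`, and `ζ² = ∑ x_l y_l`.

`D`-affinity: the identity of `O(n)` is a finite sum of composites of differential operators
`O(n) → O → O(n)` (projections to the monomials in a residue class modulo `q > n`), hence `D`-modules
are generated by their global sections. A partition of an operator into its components according to
the integral parts of the exponents modulo `q` is a contracting homotopy of the Čech complex of `D`.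
Then the higher cohomology of every `D`-module vanishes by descending induction on the degree.

`H¹(D^(e)) ≠ 0`: let `T = 2^(e-1)`, let `mu`, `nu` be exponents with `∑ nu = 2T`, `mu, nu ≥ 0`,
`mu + nu < T`, `T(m + 1) + ∑ mu ∈ 2Tℤ`. For `a` let `Δ_a` be the operator with
`Δ_a (ξ^v) = (v_{a'} - mu_{a'}) / T · ξ^(v - T pr_a + nu)` if `T` divides `v - mu`, zero on the other
monomials, where `a'` is the other coordinate of the pair of `a`, and `pr_a` the exponent of the pair.
The commutator of `Δ_a` with a `2^e`-th power does not depend on `a`, and `Δ_a` has poles along `a`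
only. So `Δ_b - Δ_a` is a cocycle of `D^(e)`. It is not a coboundary: this would give an operator
without poles with the same commutators, and comparing one coefficient gives `1 = 0`.
-/

set_option autoImplicit false

universe u x

namespace Pool.Agent.Results.MP_5ac764_ag.QuadricsDAffineNotTilting

open MvPolynomial Pool.Agent.H824 Pool.Agent.H17DA

theorem result (k : Type u) [Field k] [IsAlgClosed k] [CharP k 2] (m : ℕ) (hm : 1 ≤ m)
    [LinearOrder (Fin (m + 1) × Fin 2)] :
    ∃ V : ProjVariety k (QVar m),
      V.ideal = Ideal.span {quadForm k m} ∧ V.dim = 2 * m + 1 ∧ V.IsSmooth ∧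
      (∀ z ∈ V.points, ∃ a, z (xyIdx m a) ≠ 0) ∧
      FSplit V (xyIdx m) 2 ∧
      DAffine.{x} V (xyIdx m) 2 ∧
      ∀ e : ℕ, 2 ≤ e → ¬ LevelH1Zero V (xyIdx m) (2 ^ e) := by
  refine ⟨quadVar k m, quad_ideal, quad_dim, quad_smooth, quad_point, fSplit_quad,
    dAffine_quad, ?_⟩
  intro e he
  obtain ⟨s, rfl⟩ : ∃ s, e = s + 1 := ⟨e - 1, by omega⟩
  exact level_ne_zero hm s (by omega)

end Pool.Agent.Results.MP_5ac764_ag.QuadricsDAffineNotTilting
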